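import Pool.Agent.Q204.UP.Lemmas
import Pool.Agent.Y986.GL.Card

/-!
# Elements of monads without divisors in tilde-dividing monads
-/

namespace Pool.Agent.Results.MP_c54df4_lc.NoDivisorInMonad

open Q204.UP Filter

/-- For every ultrafilter `G` on the positive integers there is one that is not an image of `G`. -/
theorem exists_not_image (G : Ultrafilter ℕ+) : ∃ F : Ultrafilter ℕ+, ∀ k : ℕ+ → ℕ+, G.map k ≠ F := by
  by_contra hcon
  push Not at hcon
  have hsurj : Function.Surjective (fun k : ℕ+ → ℕ+ => G.map k) := hcon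
  have h1 : Cardinal.mk (Ultrafilter ℕ+) ≤ Cardinal.mk (ℕ+ → ℕ+) := Cardinal.mk_le_of_surjective hsurj
  have h2 : Cardinal.mk (ℕ+ → ℕ+) ≤ Cardinal.continuum := by
    rw [← Cardinal.power_def, Cardinal.mk_eq_aleph0 ℕ+, Cardinal.aleph0_power_aleph0]
  have h3 : Cardinal.mk (Ultrafilter ℕ) ≤ Cardinal.mk (Ultrafilter ℕ+) := by
    obtain ⟨e⟩ : Nonempty (ℕ ≃ ℕ+) := nonempty_equiv_of_countable
    refine Cardinal.mk_le_of_injective (f := fun q : Ultrafilter ℕ => q.map e) ?_
    intro q r h
    have h2 : (q.map e : Filter ℕ+) = (r.map e : Filter ℕ+) := congrArg _ h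
    rw [Ultrafilter.coe_map, Ultrafilter.coe_map] at h2
    exact Ultrafilter.coe_injective (Filter.map_injective e.injective h2)
  have h4 := Pool.Agent.Y986.GL.card_ult
  have h5 : (2 : Cardinal.{0}) ^ ((2 : Cardinal.{0}) ^ Cardinal.aleph0) ≤ Cardinal.continuum :=
    h4.trans (h3.trans (h1.trans h2))
  rw [Cardinal.two_power_aleph0] at h5
  exact absurd h5 (not_le.2 (Cardinal.cantor _))

/-- **Answer.** There are ultrapower extensions, enlargements for all sets of cardinality at most
any prescribed cardinal, with ultrafilters `F`, `G` such that `F` tilde-divides `G` while some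
element of the monad of `G` is star-divisible by no element of the monad of `F`. -/
theorem result : ∀ κ : Cardinal.{0}, ∃ (I : Type) (U : Ultrafilter I), IsEnlargement κ U ∧
    ∃ F G : Ultrafilter ℕ+, TildeDvd F G ∧
      ∃ y ∈ monad U G, ∀ x ∈ monad U F, ¬ StarDvd x y := by
  intro κ
  classical
  obtain ⟨J, W, hW⟩ := exists_enlargement κ
  -- an ultrafilter divisible by all positive integers
  let fact : ℕ → ℕ+ := fun n => ⟨n.factorial, n.factorial_pos⟩
  let G : Ultrafilter ℕ+ := Ultrafilter.map fact (Filter.hyperfilter ℕ)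
  have hG : ∀ n : ℕ+, {m : ℕ+ | n ∣ m} ∈ G := by
    intro n
    show fact ⁻¹' {m : ℕ+ | n ∣ m} ∈ Filter.hyperfilter ℕ
    have h := Filter.compl_mem_hyperfilter_of_finite (s := {k | k < (n : ℕ)}) (Set.finite_lt_nat n)
    refine Filter.mem_of_superset h fun k hk => ?_
    have hk' : ¬ k < (n : ℕ) := hk
    show n ∣ fact k
    rw [PNat.dvd_iff]
    exact Nat.dvd_factorial n.pos (not_lt.1 hk')
  obtain ⟨F, hF⟩ := exists_not_image G
  refine ⟨ℕ+ × J, prod G W, prod_enlargement G W hW, F, G, ?_, ?_⟩
  · intro A hA
    obtain ⟨a, ha⟩ := Ultrafilter.nonempty_of_mem hA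
    exact Filter.mem_of_superset (hG a) fun n hn => ⟨a, ha, hn⟩
  · refine ⟨((fun i : ℕ+ × J => i.1 : ℕ+ × J → ℕ+) : (prod G W : Filter (ℕ+ × J)).Germ ℕ+),
      ?_, ?_⟩
    · intro A hA
      rw [coe_mem_star, eventually_prod]
      filter_upwards [hA] with m hm
      exact Filter.Eventually.of_forall fun _ => hm
    · intro x hx hdvd
      induction x using Germ.inductionOn with
      | h h =>
        have hd := starDvd_coe _ _ hdvd
        rw [eventually_prod] at hd
        have hkey : ∀ᶠ m in (G : Filter ℕ+), ∃ b : ℕ+, ∀ᶠ j in (W : Filter J),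
            h (m, j) = b := by
          filter_upwards [hd] with m h1
          obtain ⟨b, _, hb⟩ := ev_const W (fun j => h (m, j)) (Set.finite_Iic m) (by
            filter_upwards [h1] with j hj
            exact PNat.le_of_dvd hj)
          exact ⟨b, hb⟩
        let k : ℕ+ → ℕ+ := fun m =>
          if hm : ∃ b : ℕ+, ∀ᶠ j in (W : Filter J), h (m, j) = b then hm.choose else 1
        have hk : ∀ᶠ m in (G : Filter ℕ+), ∀ᶠ j in (W : Filter J), h (m, j) = k m := by
          filter_upwards [hkey] with m hm
          have : k m = hm.choose := dif_pos hm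
          rw [this]
          exact hm.choose_spec
        apply hF k
        apply Ultrafilter.eq_of_le
        intro A hA
        have hA2 := hx A hA
        rw [coe_mem_star, eventually_prod] at hA2
        show k ⁻¹' A ∈ G
        filter_upwards [hA2, hk] with m h1 h2
        obtain ⟨j, hj1, hj2⟩ := Ultrafilter.nonempty_of_mem (Filter.inter_mem h1 h2)
        have e : h (m, j) = k m := hj2
        show k m ∈ A
        rw [← e]
        exact hj1

end Pool.Agent.Results.MP_c54df4_lc.NoDivisorInMonad
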